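import Pool.Agent.Lib.MP_a14fda_pr.FKH.Defs

/-! Two-colourings count the clusters; component numbers and connections under substitution. -/

namespace Pool.Agent.FKH

namespace Net

variable {I E J F : Type}

/-- `σ` is constant on the open clusters. -/
def Compat (G : Net I E) (ω : E → Bool) (σ : Bool ⊕ I → Bool) : Prop :=
  ∀ e, ω e = true → σ (G.ends e).1 = σ (G.ends e).2

lemma compat_iff (G : Net I E) (ω : E → Bool) (σ : Bool ⊕ I → Bool) :
    G.Compat ω σ ↔ ∀ x y, (G.openGraph ω).Adj x y → σ x = σ y := by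
  constructor
  · intro h x y hxy
    rw [openGraph, SimpleGraph.fromRel_adj] at hxy
    rcases hxy.2 with ⟨e, he, h1⟩ | ⟨e, he, h1⟩
    · have := h e he
      rw [h1] at this
      exact this
    · have := h e he
      rw [h1] at this
      exact this.symm
  · intro h e he
    by_cases hxy : (G.ends e).1 = (G.ends e).2
    · rw [hxy]
    · apply h
      rw [openGraph, SimpleGraph.fromRel_adj]
      exact ⟨hxy, Or.inl ⟨e, he, rfl⟩⟩

lemma Compat.reach {G : Net I E} {ω : E → Bool} {σ : Bool ⊕ I → Bool} (h : G.Compat ω σ)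
    {x y : Bool ⊕ I} (hxy : (G.openGraph ω).Reachable x y) : σ x = σ y := by
  rw [compat_iff] at h
  obtain ⟨p⟩ := hxy
  induction p with
  | nil => rfl
  | cons hadj _ ih => exact (h _ _ hadj).trans ih

/-- Colourings of the components. -/
noncomputable def colorEquiv (G : Net I E) (ω : E → Bool) :
    {σ : Bool ⊕ I → Bool // G.Compat ω σ} ≃ ((G.openGraph ω).ConnectedComponent → Bool) where
  toFun σ := fun c => c.lift σ.1 fun _ _ p _ => σ.2.reach ⟨p⟩
  invFun τ := ⟨fun v => τ ((G.openGraph ω).connectedComponentMk v), by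
    rw [compat_iff]
    intro x y hxy
    rw [SimpleGraph.ConnectedComponent.sound hxy.reachable]⟩
  left_inv σ := by
    apply Subtype.ext
    funext v
    rfl
  right_inv τ := by
    funext c
    induction c using SimpleGraph.ConnectedComponent.ind
    rfl

instance [Finite I] (G : Net I E) (ω : E → Bool) :
    Finite (G.openGraph ω).ConnectedComponent :=
  Finite.of_surjective (G.openGraph ω).connectedComponentMk Quot.mk_surjective

lemma card_compat [Finite I] (G : Net I E) (ω : E → Bool) :
    Nat.card {σ : Bool ⊕ I → Bool // G.Compat ω σ} = 2 ^ G.numComp ω := by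
  have : Fintype (G.openGraph ω).ConnectedComponent := Fintype.ofFinite _
  rw [Nat.card_congr (G.colorEquiv ω), Nat.card_pi]
  simp [numComp, Nat.card_eq_fintype_card]

lemma reachable_iff (G : Net I E) (ω : E → Bool) (x y : Bool ⊕ I) :
    (G.openGraph ω).Reachable x y ↔ ∀ σ, G.Compat ω σ → σ x = σ y := by
  classical
  constructor
  · intro h σ hσ
    exact hσ.reach h
  · intro h
    have := h (fun z => decide ((G.openGraph ω).Reachable x z)) (by
      rw [compat_iff]
      intro u v huv
      rw [decide_eq_decide]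
      exact ⟨fun h => h.trans huv.reachable, fun h => h.trans huv.reachable.symm⟩)
    simpa using this

/-- The number of compatible colourings with given colours of two vertices. -/
noncomputable def cntAt (G : Net I E) (ω : E → Bool) (x y : Bool ⊕ I) (s t : Bool) : ℕ :=
  Nat.card {σ : Bool ⊕ I → Bool // G.Compat ω σ ∧ σ x = s ∧ σ y = t}

/-- The number of compatible colourings with given colours of the terminals. -/
noncomputable def cnt (G : Net I E) (ω : E → Bool) (s t : Bool) : ℕ :=
  G.cntAt ω (Sum.inl false) (Sum.inl true) s t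

lemma Compat.flip {G : Net I E} {ω : E → Bool} {σ : Bool ⊕ I → Bool} (h : G.Compat ω σ) :
    G.Compat ω (fun x => !(σ x)) := by
  intro e he
  simp only [h e he]

lemma Compat.flipAt {G : Net I E} {ω : E → Bool} {σ : Bool ⊕ I → Bool} (h : G.Compat ω σ)
    {ρ : Bool ⊕ I → Bool} (hρ : G.Compat ω ρ) :
    G.Compat ω (fun x => xor (σ x) (ρ x)) := by
  intro e he
  simp only [h e he, hρ e he]

lemma cntAt_flip (G : Net I E) (ω : E → Bool) (x y : Bool ⊕ I) (s t : Bool) :
    G.cntAt ω x y s t = G.cntAt ω x y (!s) (!t) := by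
  refine Nat.card_congr ⟨fun σ => ⟨fun x => !(σ.1 x), σ.2.1.flip, by simp [σ.2.2.1],
    by simp [σ.2.2.2]⟩, fun σ => ⟨fun x => !(σ.1 x), σ.2.1.flip, by simp [σ.2.2.1],
    by simp [σ.2.2.2]⟩, fun σ => ?_, fun σ => ?_⟩ <;>
  · apply Subtype.ext
    funext x
    simp

lemma cntAt_flipRight (G : Net I E) (ω : E → Bool) (x y : Bool ⊕ I)
    (h : ¬ (G.openGraph ω).Reachable x y) (s t : Bool) :
    G.cntAt ω x y s t = G.cntAt ω x y s (!t) := by
  classical
  obtain ⟨ρ, hρ, hρ'⟩ : ∃ ρ, G.Compat ω ρ ∧ ρ x ≠ ρ y := by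
    rw [reachable_iff] at h
    push Not at h
    exact h
  obtain ⟨κ, hκ, hκ0, hκ1⟩ : ∃ κ, G.Compat ω κ ∧ κ x = false ∧ κ y = true := by
    cases h0 : ρ x
    · refine ⟨ρ, hρ, h0, ?_⟩
      rw [h0] at hρ'
      cases h1 : ρ y
      · exact absurd h1.symm hρ'
      · rfl
    · refine ⟨fun x => !(ρ x), hρ.flip, by simp [h0], ?_⟩
      rw [h0] at hρ'
      cases h1 : ρ y
      · simp [h1]
      · exact absurd h1.symm hρ'
  refine Nat.card_congr ⟨fun σ => ⟨fun x => xor (σ.1 x) (κ x), σ.2.1.flipAt hκ,
    by simp [σ.2.2.1, hκ0], by simp [σ.2.2.2, hκ1]⟩,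
    fun σ => ⟨fun x => xor (σ.1 x) (κ x), σ.2.1.flipAt hκ,
    by simp [σ.2.2.1, hκ0], by simp [σ.2.2.2, hκ1]⟩, fun σ => ?_, fun σ => ?_⟩ <;>
  · apply Subtype.ext
    funext x
    simp

lemma cntAt_sum [Finite I] (G : Net I E) (ω : E → Bool) (x y : Bool ⊕ I) :
    ∑ s : Bool, ∑ t : Bool, G.cntAt ω x y s t = 2 ^ G.numComp ω := by
  have hI : Fintype I := Fintype.ofFinite I
  rw [← card_compat]
  have e : {σ : Bool ⊕ I → Bool // G.Compat ω σ} ≃ (Σ s : Bool, Σ t : Bool,
      {σ : Bool ⊕ I → Bool // G.Compat ω σ ∧ σ x = s ∧ σ y = t}) :=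
    ⟨fun σ => ⟨σ.1 x, σ.1 y, σ.1, σ.2, rfl, rfl⟩,
      fun z => ⟨z.2.2.1, z.2.2.2.1⟩, fun σ => rfl, fun z => by
        obtain ⟨s, t, σ, h1, h2, h3⟩ := z
        subst h2
        subst h3
        rfl⟩
  rw [Nat.card_congr e, Nat.card_sigma]
  refine Finset.sum_congr rfl fun s _ => ?_
  rw [Nat.card_sigma]
  rfl

lemma cntAt_of_reachable [Finite I] (G : Net I E) (ω : E → Bool) (x y : Bool ⊕ I)
    (h : (G.openGraph ω).Reachable x y) (s t : Bool) :
    2 * G.cntAt ω x y s t = if s = t then 2 ^ G.numComp ω else 0 := by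
  have h0 : ∀ s t, s ≠ t → G.cntAt ω x y s t = 0 := by
    intro s t hst
    rw [cntAt, Nat.card_eq_zero]
    left
    refine ⟨fun σ => hst ?_⟩
    exact σ.2.2.1.symm.trans ((σ.2.1.reach h).trans σ.2.2.2)
  by_cases hst : s = t
  · subst hst
    rw [if_pos rfl, ← cntAt_sum G ω x y]
    have h1 := h0 true false (by simp)
    have h2 := h0 false true (by simp)
    have h3 := cntAt_flip G ω x y true true
    simp only [Bool.not_true] at h3
    simp only [Fintype.sum_bool, h1, h2]
    cases s <;> omega
  · rw [if_neg hst, h0 s t hst]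

lemma cntAt_of_not_reachable [Finite I] (G : Net I E) (ω : E → Bool) (x y : Bool ⊕ I)
    (h : ¬ (G.openGraph ω).Reachable x y) (s t : Bool) :
    4 * G.cntAt ω x y s t = 2 ^ G.numComp ω := by
  rw [← cntAt_sum G ω x y]
  have h1 := cntAt_flipRight G ω x y h true true
  have h2 := cntAt_flipRight G ω x y h false true
  have h3 := cntAt_flip G ω x y true true
  simp only [Bool.not_true] at h1 h2 h3
  simp only [Fintype.sum_bool]
  cases s <;> cases t <;> omega

/-- The crossing bit. -/
noncomputable def bit (G : Net I E) (ω : E → Bool) : Bool :=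
  open Classical in decide (G.Crossed ω)

lemma bit_eq_true (G : Net I E) (ω : E → Bool) : G.bit ω = true ↔ G.Crossed ω := by
  simp [bit]

lemma cnt_eq [Finite I] (G : Net I E) (ω : E → Bool) (s t : Bool) :
    4 * G.cnt ω s t = 2 ^ (G.numComp ω + (G.bit ω).toNat) *
      (if G.bit ω = true → s = t then 1 else 0) := by
  by_cases h : G.Crossed ω
  · have h1 : 2 * G.cnt ω s t = if s = t then 2 ^ G.numComp ω else 0 :=
      cntAt_of_reachable G ω _ _ h s t
    have hb : G.bit ω = true := (bit_eq_true G ω).mpr h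
    simp only [hb, Bool.toNat_true, true_imp_iff, pow_succ]
    split_ifs at h1 ⊢ with hst <;> omega
  · have h1 : 4 * G.cnt ω s t = 2 ^ G.numComp ω := cntAt_of_not_reachable G ω _ _ h s t
    have hb : G.bit ω = false := by
      rw [← Bool.not_eq_true, bit_eq_true]
      exact h
    simp [hb, h1]

/-- The bits of the blocks. -/
noncomputable def bits (G : Net J F) (ω : E × F → Bool) : E → Bool :=
  fun e => G.bit fun f => ω (e, f)

/-- The colouring of the copy `e` of `G` induced by a colouring of `H` and colourings of the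
interiors. -/
def glueCol (H : Net I E) (τ : Bool ⊕ I → Bool) (ζ : J → Bool) (e : E) : Bool ⊕ J → Bool
  | Sum.inl false => τ (H.ends e).1
  | Sum.inl true => τ (H.ends e).2
  | Sum.inr j => ζ j

lemma compat_subst (H : Net I E) (G : Net J F) (ω : E × F → Bool)
    (σ : Bool ⊕ (I ⊕ E × J) → Bool) :
    (H.subst G).Compat ω σ ↔ ∀ e, G.Compat (fun f => ω (e, f))
      (glueCol H (fun v => σ (v.map id Sum.inl)) (fun j => σ (Sum.inr (Sum.inr (e, j)))) e) := by
  have key : ∀ (e : E) (v : Bool ⊕ J), σ (match v with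
      | Sum.inl false => (H.ends e).1.map id Sum.inl
      | Sum.inl true => (H.ends e).2.map id Sum.inl
      | Sum.inr j => Sum.inr (Sum.inr (e, j))) =
      glueCol H (fun v => σ (v.map id Sum.inl)) (fun j => σ (Sum.inr (Sum.inr (e, j)))) e v := by
    intro e v
    rcases v with (b | j)
    · cases b <;> rfl
    · rfl
  constructor
  · intro h e f hf
    have := h (e, f) hf
    simp only [subst] at this
    rw [← key e (G.ends f).1, ← key e (G.ends f).2]
    exact this
  · rintro h ⟨e, f⟩ hf
    have := h e f hf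
    rw [← key e (G.ends f).1, ← key e (G.ends f).2] at this
    simp only [subst]
    exact this

/-- Join a colouring of `H` and colourings of the interiors. -/
def joinCol (τ : Bool ⊕ I → Bool) (ζ : E → J → Bool) : Bool ⊕ (I ⊕ E × J) → Bool
  | Sum.inl b => τ (Sum.inl b)
  | Sum.inr (Sum.inl i) => τ (Sum.inr i)
  | Sum.inr (Sum.inr (e, j)) => ζ e j

lemma joinCol_lift (τ : Bool ⊕ I → Bool) (ζ : E → J → Bool) :
    (fun v : Bool ⊕ I => joinCol τ ζ (v.map id Sum.inl)) = τ := by
  funext v
  rcases v with (b | i) <;> rfl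

lemma glueCol_ends (H : Net I E) (τ : Bool ⊕ I → Bool) (e : E) (η : Bool ⊕ J → Bool)
    (h0 : η (Sum.inl false) = τ (H.ends e).1) (h1 : η (Sum.inl true) = τ (H.ends e).2) :
    glueCol H τ (fun j => η (Sum.inr j)) e = η := by
  funext v
  rcases v with (b | j)
  · cases b
    · exact h0.symm
    · exact h1.symm
  · rfl

/-- Colourings of the substituted network with a given trace on `H`. -/
noncomputable def substEquiv (H : Net I E) (G : Net J F) (ω : E × F → Bool)
    (τ : Bool ⊕ I → Bool) :
    {σ : Bool ⊕ (I ⊕ E × J) → Bool // (H.subst G).Compat ω σ ∧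
      (fun v : Bool ⊕ I => σ (v.map id Sum.inl)) = τ} ≃
      (∀ e : E, {η : Bool ⊕ J → Bool //
        G.Compat (fun f => ω (e, f)) η ∧ η (Sum.inl false) = τ (H.ends e).1 ∧
          η (Sum.inl true) = τ (H.ends e).2}) where
  toFun σ := fun e =>
    ⟨glueCol H τ (fun j => σ.1 (Sum.inr (Sum.inr (e, j)))) e, by
      have := (compat_subst H G ω σ.1).mp σ.2.1 e
      rwa [σ.2.2] at this, rfl, rfl⟩
  invFun x := ⟨joinCol τ (fun e j => (x e).1 (Sum.inr j)), by
      rw [compat_subst]
      intro e
      rw [joinCol_lift]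
      have h := (x e).2.1
      rwa [← glueCol_ends H τ e (x e).1 (x e).2.2.1 (x e).2.2.2] at h, joinCol_lift _ _⟩
  left_inv σ := by
    obtain ⟨σ, h1, h2⟩ := σ
    subst h2
    apply Subtype.ext
    funext v
    rcases v with (b | i | ⟨e, j⟩) <;> rfl
  right_inv x := by
    funext e
    apply Subtype.ext
    exact glueCol_ends H τ e (x e).1 (x e).2.2.1 (x e).2.2.2

lemma numComp_subst [Finite I] [Finite J] [Fintype E] (H : Net I E) (G : Net J F)
    (ω : E × F → Bool) :
    (H.subst G).numComp ω + 2 * Fintype.card E =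
      H.numComp (G.bits ω) + ∑ e, (G.numComp (fun f => ω (e, f)) + (G.bits ω e).toNat) := by
  classical
  have hI : Fintype I := Fintype.ofFinite I
  have hJ : Fintype J := Fintype.ofFinite J
  have h1 : (2 : ℕ) ^ (H.subst G).numComp ω = ∑ τ : Bool ⊕ I → Bool, ∏ e : E,
      G.cnt (fun f => ω (e, f)) (τ (H.ends e).1) (τ (H.ends e).2) := by
    rw [← card_compat, ← Nat.card_congr (Equiv.sigmaFiberEquiv
      fun σ : {σ : Bool ⊕ (I ⊕ E × J) → Bool // (H.subst G).Compat ω σ} =>
        fun v : Bool ⊕ I => σ.1 (v.map id Sum.inl)), Nat.card_sigma]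
    refine Finset.sum_congr rfl fun τ _ => ?_
    rw [Nat.card_congr ((Equiv.subtypeSubtypeEquivSubtypeInter _ _).trans
      (substEquiv H G ω τ)), Nat.card_pi]
    rfl
  have h2 : (2 : ℕ) ^ H.numComp (G.bits ω) =
      ∑ τ : Bool ⊕ I → Bool, (if H.Compat (G.bits ω) τ then 1 else 0) := by
    rw [← card_compat, Nat.card_eq_fintype_card, Fintype.card_subtype]
    simp
  have h3 : ∀ τ : Bool ⊕ I → Bool, 4 ^ Fintype.card E * ∏ e : E,
      G.cnt (fun f => ω (e, f)) (τ (H.ends e).1) (τ (H.ends e).2) =
      (∏ e : E, 2 ^ (G.numComp (fun f => ω (e, f)) + (G.bits ω e).toNat)) *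
        (if H.Compat (G.bits ω) τ then 1 else 0) := by
    intro τ
    have h4 : ∏ e : E, (4 * G.cnt (fun f => ω (e, f)) (τ (H.ends e).1) (τ (H.ends e).2)) =
      4 ^ Fintype.card E * ∏ e : E,
      G.cnt (fun f => ω (e, f)) (τ (H.ends e).1) (τ (H.ends e).2) := by
      rw [Finset.prod_mul_distrib]
      simp
    rw [← h4]
    simp only [cnt_eq]
    rw [Finset.prod_mul_distrib]
    congr 1
    by_cases hc : H.Compat (G.bits ω) τ
    · rw [if_pos hc]
      refine Finset.prod_eq_one fun e _ => ?_
      rw [if_pos]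
      exact fun he => hc e he
    · rw [if_neg hc]
      unfold Compat at hc
      push Not at hc
      obtain ⟨e, he, hne⟩ := hc
      refine Finset.prod_eq_zero (Finset.mem_univ e) ?_
      rw [if_neg]
      exact fun h => hne (h he)
  have h5 : (2 : ℕ) ^ ((H.subst G).numComp ω + 2 * Fintype.card E) =
      2 ^ (H.numComp (G.bits ω) +
        ∑ e, (G.numComp (fun f => ω (e, f)) + (G.bits ω e).toNat)) := by
    rw [pow_add, pow_mul, h1, pow_add, h2, ← Finset.prod_pow_eq_pow_sum, Finset.sum_mul,
      Finset.sum_mul]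
    refine Finset.sum_congr rfl fun τ _ => ?_
    have := h3 τ
    norm_num at this ⊢
    linarith
  exact Nat.pow_right_injective le_rfl h5

lemma crossed_subst [Finite I] [Finite J] (H : Net I E) (G : Net J F)
    (ω : E × F → Bool) : (H.subst G).Crossed ω ↔ H.Crossed (G.bits ω) := by
  classical
  unfold Crossed
  rw [reachable_iff, reachable_iff]
  constructor
  · intro h τ hτ
    have hex : ∀ e : E, ∃ η : Bool ⊕ J → Bool,
        G.Compat (fun f => ω (e, f)) η ∧ η (Sum.inl false) = τ (H.ends e).1 ∧
          η (Sum.inl true) = τ (H.ends e).2 := by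
      intro e
      have hJ : Fintype J := Fintype.ofFinite J
      have h1 := G.cnt_eq (fun f => ω (e, f)) (τ (H.ends e).1) (τ (H.ends e).2)
      rw [if_pos (show (G.bit fun f => ω (e, f)) = true → τ (H.ends e).1 = τ (H.ends e).2 from
        fun he => hτ e he)] at h1
      have h2 : G.cnt (fun f => ω (e, f)) (τ (H.ends e).1) (τ (H.ends e).2) ≠ 0 := by
        intro h0
        rw [h0] at h1
        simp only [mul_zero, mul_one] at h1
        exact absurd h1.symm (by positivity)
      have h3 := Nat.card_ne_zero.mp h2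
      obtain ⟨⟨η, hη⟩⟩ := h3.1
      exact ⟨η, hη⟩
    choose η hη using hex
    exact h _ ((substEquiv H G ω τ).symm fun e => ⟨η e, hη e⟩).2.1
  · intro h σ hσ
    have h1 : H.Compat (G.bits ω) (fun v => σ (v.map id Sum.inl)) := by
      intro e he
      have h2 := (compat_subst H G ω σ).mp hσ e
      have h3 : G.Crossed (fun f => ω (e, f)) := (bit_eq_true _ _).mp he
      exact h2.reach h3
    exact h _ h1

lemma bit_subst [Finite I] [Finite J] (H : Net I E) (G : Net J F)
    (ω : E × F → Bool) : (H.subst G).bit ω = H.bit (G.bits ω) := by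
  rw [Bool.eq_iff_iff, bit_eq_true, bit_eq_true, crossed_subst]

lemma cross_eq (G : Net I E) (ω : E → Bool) : G.cross ω = if G.bit ω = true then 1 else 0 := by
  unfold cross
  by_cases h : G.Crossed ω
  · rw [if_pos h, if_pos ((bit_eq_true G ω).mpr h)]
  · rw [if_neg h, if_neg (fun h2 => h ((bit_eq_true G ω).mp h2))]

/-- Opening an edge whose ends are not yet joined. -/
lemma compat_update [DecidableEq E] (G : Net I E) (ω : E → Bool) (e : E)
    (σ : Bool ⊕ I → Bool) : G.Compat (Function.update ω e true) σ ↔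
      G.Compat (Function.update ω e false) σ ∧ σ (G.ends e).1 = σ (G.ends e).2 := by
  constructor
  · intro h
    refine ⟨fun f hf => ?_, h e (by simp)⟩
    by_cases hfe : f = e
    · subst hfe
      simp at hf
    · apply h
      rw [Function.update_of_ne hfe] at hf ⊢
      exact hf
  · rintro ⟨h, h2⟩ f hf
    by_cases hfe : f = e
    · subst hfe
      exact h2
    · apply h
      rw [Function.update_of_ne hfe] at hf ⊢
      exact hf

lemma bit_update_mono [DecidableEq E] (G : Net I E) (ω : E → Bool) (e : E)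
    (h : G.bit (Function.update ω e false) = true) :
    G.bit (Function.update ω e true) = true := by
  rw [bit_eq_true, Crossed, reachable_iff] at h ⊢
  intro σ hσ
  exact h σ ((compat_update G ω e σ).mp hσ).1

/-- Opening an edge: either the components do not change, or two components are merged. -/
lemma numComp_update [Finite I] [DecidableEq E] (G : Net I E) (ω : E → Bool) (e : E) :
    (G.numComp (Function.update ω e true) = G.numComp (Function.update ω e false) ∧
      G.bit (Function.update ω e true) = G.bit (Function.update ω e false)) ∨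
    G.numComp (Function.update ω e true) + 1 = G.numComp (Function.update ω e false) := by
  by_cases h : (G.openGraph (Function.update ω e false)).Reachable (G.ends e).1 (G.ends e).2
  · left
    have h1 : ∀ σ, G.Compat (Function.update ω e true) σ ↔
        G.Compat (Function.update ω e false) σ := by
      intro σ
      rw [compat_update]
      exact ⟨fun h => h.1, fun h2 => ⟨h2, h2.reach h⟩⟩
    constructor
    · have h2 := card_compat G (Function.update ω e true)
      rw [Nat.card_congr (Equiv.subtypeEquivRight h1), card_compat] at h2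
      exact (Nat.pow_right_injective le_rfl h2).symm
    · rw [Bool.eq_iff_iff, bit_eq_true, bit_eq_true, Crossed, Crossed, reachable_iff,
        reachable_iff]
      simp only [h1]
  · right
    have h1 : Nat.card {σ : Bool ⊕ I → Bool // G.Compat (Function.update ω e true) σ} =
        G.cntAt (Function.update ω e false) (G.ends e).1 (G.ends e).2 true true +
        G.cntAt (Function.update ω e false) (G.ends e).1 (G.ends e).2 false false := by
      have e1 : {σ : Bool ⊕ I → Bool // G.Compat (Function.update ω e true) σ} ≃ (Σ s : Bool,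
          {σ : Bool ⊕ I → Bool // G.Compat (Function.update ω e false) σ ∧
            σ (G.ends e).1 = s ∧ σ (G.ends e).2 = s}) :=
        ⟨fun σ => ⟨σ.1 (G.ends e).1, σ.1, ((compat_update G ω e σ.1).mp σ.2).1, rfl,
            ((compat_update G ω e σ.1).mp σ.2).2.symm⟩,
          fun z => ⟨z.2.1, (compat_update G ω e z.2.1).mpr
            ⟨z.2.2.1, z.2.2.2.1.trans z.2.2.2.2.symm⟩⟩,
          fun σ => rfl, fun z => by
            obtain ⟨s, σ, h1, h2, h3⟩ := z
            subst h2
            rfl⟩
      have : Fintype I := Fintype.ofFinite I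
      rw [Nat.card_congr e1, Nat.card_sigma, Fintype.sum_bool]
      rfl
    rw [card_compat] at h1
    have h2 := cntAt_of_not_reachable G _ _ _ h true true
    have h3 := cntAt_of_not_reachable G _ _ _ h false false
    have h4 : 2 ^ (G.numComp (Function.update ω e true) + 1) =
        2 ^ G.numComp (Function.update ω e false) := by
      rw [pow_succ]
      omega
    exact Nat.pow_right_injective le_rfl h4

end Net

instance LInt.finite {I E : Type} [Finite I] [Finite E] : ∀ k, Finite (LInt I E k)
  | 0 => inferInstanceAs (Finite Empty)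
  | k + 1 =>
    have := LInt.finite (I := I) (E := E) k
    inferInstanceAs (Finite (I ⊕ E × LInt I E k))

end Pool.Agent.FKH
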