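import Pool.Agent.Lib.MP_a14fda_pr.Mg.G005

/-! Noise sensitivity for critical gadgets, and for the bridge. -/

open Finset

namespace Pool.Agent.FKH

section general

variable {I : Type} [Finite I] {n : ℕ} {H : Net I (Fin (n + 1))} {p q θ : ℝ}

lemma vb_pos (H : Net I (Fin (n + 1))) {x : ℝ} (hx : 0 < x) (hq : 0 < q)
    (c : Fin (n + 1) → Bool) : 0 < H.vb x q c :=
  mul_pos (Net.wb_pos H hq c) (prod_pos fun j _ => by split_ifs <;> positivity)

/-- The conditional probability that the bit `e` is open given the crossing bit. -/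
noncomputable def cprob (H : Net I (Fin (n + 1))) (x q : ℝ) (e : Fin (n + 1)) (b : Bool) : ℝ :=
  (∑ c, if H.bit c = b then H.vb x q c * (if c e = true then 1 else 0) else 0) /
    aval (H.vb x q) H.bit b

lemma cprob_mem (hc : Critical H p q θ) (e : Fin (n + 1)) (b : Bool) :
    0 ≤ cprob H (p / (1 - p)) q e b ∧ cprob H (p / (1 - p)) q e b ≤ 1 := by
  have hx : 0 < p / (1 - p) := div_pos hc.hp0 (by linarith [hc.hp1])
  have hA : 0 < aval (H.vb (p / (1 - p)) q) H.bit b := by
    cases b
    · exact hc.pos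
    · rw [hc.fix]
      exact mul_pos hx hc.pos
  have hv := vb_pos H hx hc.hq
  unfold cprob
  constructor
  · refine div_nonneg (sum_nonneg fun c _ => ?_) hA.le
    split_ifs
    · simpa using (hv c).le
    · simp
    · exact le_rfl
  · rw [div_le_one hA, aval]
    refine sum_le_sum fun c _ => ?_
    split_ifs
    · simp
    · simpa using (hv c).le
    · exact le_rfl

/-- The centred bit. -/
noncomputable def mbit (H : Net I (Fin (n + 1))) (x q : ℝ) (e : Fin (n + 1))
    (c : Fin (n + 1) → Bool) : ℝ := (if c e = true then 1 else 0) - cprob H x q e (H.bit c)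

lemma mbit_abs (hc : Critical H p q θ) (e : Fin (n + 1)) (c : Fin (n + 1) → Bool) :
    |mbit H (p / (1 - p)) q e c| ≤ 1 := by
  have h := cprob_mem hc e (H.bit c)
  unfold mbit
  rw [abs_le]
  split_ifs <;> constructor <;> linarith [h.1, h.2]

lemma mbit_mean (hc : Critical H p q θ) (e : Fin (n + 1)) (ρ : ℝ) :
    ∑ c, bw (H.vb (p / (1 - p)) q) H.bit ρ c * mbit H (p / (1 - p)) q e c = 0 := by
  have hx : 0 < p / (1 - p) := div_pos hc.hp0 (by linarith [hc.hp1])
  set x := p / (1 - p) with hxd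
  have hA : ∀ b, aval (H.vb x q) H.bit b ≠ 0 := by
    intro b
    cases b
    · exact hc.pos.ne'
    · rw [hc.fix]
      exact (mul_pos hx hc.pos).ne'
  have key : ∀ b : Bool, ∑ c, (if H.bit c = b then H.vb x q c *
      ((if c e = true then 1 else 0) - cprob H x q e b) else 0) = 0 := by
    intro b
    have h1 : ∀ c, (if H.bit c = b then H.vb x q c *
        ((if c e = true then 1 else 0) - cprob H x q e b) else 0) =
        (if H.bit c = b then H.vb x q c * (if c e = true then 1 else 0) else 0) -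
          (if H.bit c = b then H.vb x q c else 0) * cprob H x q e b := by
      intro c
      split_ifs <;> ring
    simp only [h1]
    rw [sum_sub_distrib, ← sum_mul]
    have h2 : (∑ c, if H.bit c = b then H.vb x q c else 0) = aval (H.vb x q) H.bit b := rfl
    rw [h2, cprob, mul_div_cancel₀ _ (hA b), sub_self]
  have h3 : ∀ c, bw (H.vb x q) H.bit ρ c * mbit H x q e c =
      ρ * (if H.bit c = true then H.vb x q c *
        ((if c e = true then 1 else 0) - cprob H x q e true) else 0) +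
      (if H.bit c = false then H.vb x q c *
        ((if c e = true then 1 else 0) - cprob H x q e false) else 0) := by
    intro c
    unfold bw mbit
    cases H.bit c <;> simp
    ring
  simp only [h3]
  rw [sum_add_distrib, ← mul_sum, key, key]
  ring

/-- The `H^{-1}` bound for the block crossings, uniformly in the volume. -/
lemma HM_block (hc : Critical H p q θ) (hθ1 : θ < 1) :
    ∃ C : ℝ, 0 ≤ C ∧ ∀ (d k N : ℕ) (ι : LEdge (Fin (n + 1)) k → LEdge (Fin (n + 1)) N),
      IsBlock (Fin (n + 1)) k N ι → N = k + d →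
      HM (H.lattice N) p q (fun ω => (H.lattice k).cross (ω ∘ ι)) (C * √(θ ^ k)) := by
  have hx : 0 < p / (1 - p) := div_pos hc.hp0 (by linarith [hc.hp1])
  obtain ⟨K, hK, hMZ⟩ := exists_MZ hc.hq (vb_pos H hx hc.hq) H.bit
  have hθ := hc.hθ
  have hs1 : √θ < 1 := by
    rw [Real.sqrt_lt' one_pos]
    simpa using hθ1
  have hs0 : 0 ≤ √θ := Real.sqrt_nonneg θ
  have hpow : ∀ k : ℕ, √(θ ^ k) = √θ ^ k := fun k => by
    rw [Real.sqrt_eq_iff_mul_self_eq (by positivity) (by positivity), ← mul_pow,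
      Real.mul_self_sqrt hθ]
  have hden : 0 < 1 - √θ := by linarith
  set C : ℝ := √K / (1 - √θ) + 1 with hC
  have hC0 : 0 ≤ √K / (1 - √θ) := div_nonneg (Real.sqrt_nonneg K) hden.le
  refine ⟨C, by positivity, fun d => ?_⟩
  induction d with
  | zero =>
    intro k N ι hι hN
    obtain rfl : N = k := by omega
    have h1 := eq_of_heq (hι.eq_id rfl)
    subst h1
    intro h
    refine (HM_top hc N h).trans ?_
    have h2 : 0 ≤ √(θ ^ N) := Real.sqrt_nonneg _
    have h3 : √(θ ^ N) ≤ C * √(θ ^ N) := by nlinarith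
    exact mul_le_mul_of_nonneg_right h3 (Real.sqrt_nonneg _)
  | succ d ih =>
    intro k N ι hι hN
    obtain ⟨e, κ, hκ, hικ⟩ := hι.peel (by omega)
    have h1 := ih (k + 1) N κ hκ (by omega)
    obtain ⟨l1, l2, l3⟩ := levels hc k
    have hA0 : ∀ b, 0 < aval ((H.lattice k).uw p q) (H.lattice k).bit b := by
      intro b
      cases b
      · exact l1
      · rw [l2]
        exact mul_pos hx l1
    have h2 : MZ q (K * θ ^ k) ((H.lattice (k + 1)).uw p q) (H.lattice (k + 1)).bit
        (fun ω => mbit H (p / (1 - p)) q e ((H.lattice k).bits ω)) :=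
      MZ_lift H (H.lattice k) hc.hp0 hc.hp1 hc.hq hA0 l2 l3 hK
        (hMZ _ (mbit_abs hc e) fun ρ _ => mbit_mean hc e ρ)
    have hKθ : 0 ≤ K * θ ^ k := by positivity
    have h3 := HM_of_MZ hKθ (MZ_block hc hKθ h2 hκ) hc.hp0 hc.hp1 hc.hq
    set α := cprob H (p / (1 - p)) q e with hα
    have h4 := HM_lin (a := α true - α false) (c := α false) h3 h1 (by
      have c1 := cprob_mem hc e true
      have c0 := cprob_mem hc e false
      rw [abs_le]
      constructor <;> linarith [c1.1, c1.2, c0.1, c0.2]) hc.hp0 hc.hp1 hc.hq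
    have h5 : (fun ω : LEdge (Fin (n + 1)) N → Bool => (H.lattice k).cross (ω ∘ ι)) =
        fun ω => (fun ω : LEdge (Fin (n + 1)) N → Bool =>
          (fun ω => mbit H (p / (1 - p)) q e ((H.lattice k).bits ω)) (ω ∘ κ)) ω +
          (α false + (α true - α false) * (H.lattice (k + 1)).cross (ω ∘ κ)) := by
      funext ω
      have h6 : (H.lattice k).cross (ω ∘ ι) =
          if (H.lattice k).bits (ω ∘ κ : Fin (n + 1) × LEdge (Fin (n + 1)) k → Bool) e = true
            then 1 else 0 := by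
        rw [Net.cross_eq]
        have h7 : ω ∘ ι = fun f => (ω ∘ κ : Fin (n + 1) × LEdge (Fin (n + 1)) k → Bool) (e, f) := by
          funext x
          show ω (ι x) = ω (κ (e, x))
          rw [hικ]
        rw [h7]
        rfl
      have h8 : (H.lattice (k + 1)).cross (ω ∘ κ) =
          if H.bit ((H.lattice k).bits
            (ω ∘ κ : Fin (n + 1) × LEdge (Fin (n + 1)) k → Bool)) = true then 1 else 0 := by
        rw [Net.cross_eq]
        have h9 := Net.bit_subst H (H.lattice k)
          (ω ∘ κ : Fin (n + 1) × LEdge (Fin (n + 1)) k → Bool)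
        have h10 : (H.lattice (k + 1)).bit (ω ∘ κ) = (H.subst (H.lattice k)).bit
          (ω ∘ κ : Fin (n + 1) × LEdge (Fin (n + 1)) k → Bool) := rfl
        rw [h10, h9]
      rw [h6, h8]
      simp only [mbit]
      rw [← hα]
      cases H.bit ((H.lattice k).bits
            (ω ∘ κ : Fin (n + 1) × LEdge (Fin (n + 1)) k → Bool)) <;> simp
    rw [h5]
    intro h
    refine (h4 h).trans (mul_le_mul_of_nonneg_right ?_ (Real.sqrt_nonneg _))
    rw [Real.sqrt_mul hK, hpow, hpow, pow_succ]
    have h6 : √K = (C - 1) * (1 - √θ) := by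
      rw [hC]
      field_simp
      ring
    rw [h6]
    have h7 : 0 ≤ √θ ^ k := pow_nonneg hs0 k
    nlinarith

/-- Noise sensitivity of the block crossings, uniformly in the volume. -/
theorem sens (hc : Critical H p q θ) (hθ1 : θ < 1) :
    ∃ C : ℝ, ∀ (k N : ℕ) (ι : LEdge (Fin (n + 1)) k → LEdge (Fin (n + 1)) N),
      IsBlock (Fin (n + 1)) k N ι → ∀ t : ℝ, 0 < t →
      0 ≤ autoCov ((H.lattice N).fk p q) t (fun ω => (H.lattice k).cross (ω ∘ ι)) ∧
      autoCov ((H.lattice N).fk p q) t (fun ω => (H.lattice k).cross (ω ∘ ι)) ≤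
        C * θ ^ k / t := by
  obtain ⟨C, hC, hb⟩ := HM_block hc hθ1
  refine ⟨C ^ 2, fun k N ι hι t ht => ?_⟩
  have hpos : ∀ ω, 0 < (H.lattice N).fk p q ω := fun ω => fk_pos hc.hp0 hc.hp1 hc.hq ω
  have hsum : ∑ ω, (H.lattice N).fk p q ω = 1 := fk_sum hc.hp0 hc.hp1 hc.hq
  refine ⟨autoCov_nonneg hpos hsum _ t, ?_⟩
  have hθk : 0 ≤ θ ^ k := pow_nonneg hc.hθ k
  refine autoCov_le hpos hsum _ (by positivity) (fun h => ?_) ht
  have h1 := hb (N - k) k N ι hι (by have := hι.le; omega) h
  rw [← sq_abs]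
  have hd : 0 ≤ dir ((H.lattice N).fk p q) h := dir_nonneg (fun ω => (hpos ω).le) h
  calc _ ≤ (C * √(θ ^ k) * √(dir ((H.lattice N).fk p q) h)) ^ 2 :=
        pow_le_pow_left₀ (abs_nonneg _) h1 2
    _ = _ := by
        rw [mul_pow, mul_pow, Real.sq_sqrt hθk, Real.sq_sqrt hd]

/-- Bounds for the crossing probabilities of the blocks. -/
theorem cross_bounds (hc : Critical H p q θ) {a b : ℝ}
    (hab : ∀ ρ : ℝ, (ρ = 1 ∨ ρ = q⁻¹) → a ≤ ρ * (p / (1 - p)) / (1 + ρ * (p / (1 - p))) ∧
      ρ * (p / (1 - p)) / (1 + ρ * (p / (1 - p))) ≤ b)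
    (k N : ℕ) (ι : LEdge (Fin (n + 1)) k → LEdge (Fin (n + 1)) N)
    (hι : IsBlock (Fin (n + 1)) k N ι) :
    a ≤ ∑ ω, (H.lattice N).fk p q ω * (H.lattice k).cross (ω ∘ ι) ∧
      ∑ ω, (H.lattice N).fk p q ω * (H.lattice k).cross (ω ∘ ι) ≤ b := by
  have hx : 0 < p / (1 - p) := div_pos hc.hp0 (by linarith [hc.hp1])
  set x := p / (1 - p) with hxd
  obtain ⟨l1, l2, -⟩ := levels hc k
  have h1 : MB q a b ((H.lattice k).uw p q) (H.lattice k).bit (H.lattice k).cross := by
    intro ρ hρ
    have hρ0 : 0 < ρ := by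
      have := hc.hq
      rcases hρ with rfl | rfl <;> positivity
    set u := (H.lattice k).uw p q
    set γ := (H.lattice k).bit
    have hZ : ∑ z, bw u γ ρ z = (1 + ρ * x) * aval u γ false := by
      have h2 : ∑ z, bw u γ ρ z = aval u γ false + ρ * aval u γ true := by
        simp only [aval, mul_sum, ← sum_add_distrib]
        refine sum_congr rfl fun z _ => ?_
        unfold bw
        cases γ z <;> simp [mul_comm]
      rw [h2, l2]
      ring
    have hS : ∑ z, bw u γ ρ z * (H.lattice k).cross z = ρ * x * aval u γ false := by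
      have h2 : ∑ z, bw u γ ρ z * (H.lattice k).cross z = ρ * aval u γ true := by
        simp only [aval, mul_sum]
        refine sum_congr rfl fun z _ => ?_
        rw [Net.cross_eq]
        unfold bw
        split_ifs <;> simp_all [mul_comm]
      rw [h2, l2]
      ring
    obtain ⟨h3, h4⟩ := hab ρ hρ
    have h5 : 0 < 1 + ρ * x := by positivity
    rw [le_div_iff₀ h5] at h3
    rw [div_le_iff₀ h5] at h4
    rw [hZ, hS]
    constructor <;> nlinarith
  have h2 := (MB_block hc h1 hι) q⁻¹ (Or.inr rfl)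
  have hZ := mass_pos (G := H.lattice N) hc.hp0 hc.hp1 hc.hq
  have h3 : ∑ ω, (H.lattice N).fk p q ω * (H.lattice k).cross (ω ∘ ι) =
      (∑ z, bw ((H.lattice N).uw p q) (H.lattice N).bit q⁻¹ z * (H.lattice k).cross (z ∘ ι)) /
        ∑ z, bw ((H.lattice N).uw p q) (H.lattice N).bit q⁻¹ z := by
    simp only [fk_eq (H.lattice N) p hc.hq]
    rw [sum_div]
    refine sum_congr rfl fun ω _ => ?_
    field_simp
  rw [h3, le_div_iff₀ hZ, div_le_iff₀ hZ]
  exact h2

end general

/-- The bridge lattice at the self-dual point. -/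
theorem bridge_sens {q : ℝ} (hq : 0 < q) (hq2 : q ≤ 5 / 2) :
    ∃ C : ℝ, ∀ (k N : ℕ) (ι : LEdge (Fin 5) k → LEdge (Fin 5) N), IsBlock (Fin 5) k N ι →
      (min 1 √q / (1 + √q) ≤ ∑ ω, (bridge.lattice N).fk (√q / (1 + √q)) q ω *
          (bridge.lattice k).cross (ω ∘ ι) ∧
        ∑ ω, (bridge.lattice N).fk (√q / (1 + √q)) q ω *
          (bridge.lattice k).cross (ω ∘ ι) ≤ max 1 √q / (1 + √q)) ∧
      ∀ t : ℝ, 0 < t →
      0 ≤ autoCov ((bridge.lattice N).fk (√q / (1 + √q)) q) t
        (fun ω => (bridge.lattice k).cross (ω ∘ ι)) ∧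
      autoCov ((bridge.lattice N).fk (√q / (1 + √q)) q) t
        (fun ω => (bridge.lattice k).cross (ω ∘ ι)) ≤ C * (99 / 100) ^ k / t := by
  have hc := critical_bridge hq hq2
  obtain ⟨C, hC⟩ := sens hc (by norm_num)
  refine ⟨C, fun k N ι hι => ⟨?_, fun t ht => hC k N ι hι t ht⟩⟩
  refine cross_bounds hc ?_ k N ι hι
  set s := √q with hsdef
  have hs : 0 < s := Real.sqrt_pos.mpr hq
  have hsq : s ^ 2 = q := Real.sq_sqrt hq.le
  have hx : s / (1 + s) / (1 - s / (1 + s)) = s := by
    have h1s : 1 + s ≠ 0 := by positivity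
    have : 1 - s / (1 + s) = 1 / (1 + s) := by field_simp; ring
    rw [this]
    field_simp
  rw [hx]
  have h1s : 0 < 1 + s := by positivity
  intro ρ hρ
  rcases hρ with rfl | rfl
  · rw [one_mul]
    exact ⟨div_le_div_of_nonneg_right (min_le_right _ _) h1s.le,
      div_le_div_of_nonneg_right (le_max_right _ _) h1s.le⟩
  · have h2 : q⁻¹ * s / (1 + q⁻¹ * s) = 1 / (1 + s) := by
      rw [← hsq]
      field_simp
      ring
    rw [h2]
    exact ⟨div_le_div_of_nonneg_right (min_le_left _ _) h1s.le,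
      div_le_div_of_nonneg_right (le_max_left _ _) h1s.le⟩

end Pool.Agent.FKH
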