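import Pool.Agent.Lib.MP_a14fda_pr.Mg.G006
import Pool.Agent.Lib.MP_a14fda_pr.FKH.Sens

/-! The influences of the edges of the bridge, and the long correlations for large `q`. -/

open Finset

namespace Pool.Agent.FKH

lemma cb_bridge {s p : ℝ} (hs : 0 < s) (hp : p / (1 - p) = s) (b : Bool) (e : Fin 5) :
    cb bridge p (s ^ 2) b (fun c => if c e = true then 1 else 0) =
      (∑ c : Fin 5 → Bool, (if gB (c 0) (c 1) (c 2) (c 3) (c 4) = b then
        wB s (c 0) (c 1) (c 2) (c 3) (c 4) else 0) * (if c e = true then 1 else 0)) /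
        ((if b = true then s ^ 3 else s ^ 2) * (s ^ 2 + 7 * s + 8)) := by
  unfold cb
  rw [hp, sum_div]
  refine sum_congr rfl fun c _ => ?_
  have hb : bridge.bit c = gB (c 0) (c 1) (c 2) (c 3) (c 4) := bit_bridge c
  simp only [kern, aval_bridge hs, wB_eq hs, hb]
  ring

lemma infl_bridge {s p : ℝ} (hs : 0 < s) (hp : p / (1 - p) = s) (e : Fin 5) :
    infl bridge p (s ^ 2) e =
      (if e = 2 then s * (s + 1) else (s + 1) * (s + 2)) / (s ^ 2 + 7 * s + 8) := by
  have hN : s ^ 2 + 7 * s + 8 ≠ 0 := by positivity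
  unfold infl
  rw [cb_bridge hs hp, cb_bridge hs hp, sum_five, sum_five]
  fin_cases e
  · simp [wB, gB]
    field_simp
    ring
  · simp [wB, gB]
    field_simp
    ring
  · simp [wB, gB]
    field_simp
    ring
  · simp [wB, gB]
    field_simp
    ring
  · simp [wB, gB]
    field_simp
    ring

lemma jsum_bridge {s p : ℝ} (hs : 0 < s) (hp : p / (1 - p) = s) :
    jsum bridge p (s ^ 2) =
      (s + 1) ^ 2 * (5 * s ^ 2 + 16 * s + 16) / (s ^ 2 + 7 * s + 8) ^ 2 := by
  have hN : s ^ 2 + 7 * s + 8 ≠ 0 := by positivity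
  unfold jsum
  simp only [infl_bridge hs hp]
  rw [Fin.sum_univ_five]
  have h0 : (0 : Fin 5) ≠ 2 := by decide
  have h1 : (1 : Fin 5) ≠ 2 := by decide
  have h3 : (3 : Fin 5) ≠ 2 := by decide
  have h4 : (4 : Fin 5) ≠ 2 := by decide
  simp only [h0, h1, h3, h4, if_false, if_true]
  field_simp
  ring

lemma fixed_bridge {s p : ℝ} (hs : 0 < s) (hp : p / (1 - p) = s) (hp0 : 0 < p) (hp1 : p < 1) :
    FixedPt bridge p (s ^ 2) := by
  refine ⟨hp0, hp1, by positivity, ?_, ?_⟩
  · rw [hp, aval_bridge hs]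
    simp only [Bool.false_eq_true, if_false]
    positivity
  · rw [hp, aval_bridge hs, aval_bridge hs]
    simp only [Bool.false_eq_true, if_false, if_true]
    ring

/-- For `q > 3 + √q` the crossings of the blocks of the bridge lattice at the self-dual point stay
correlated up to a time which is exponential in the level. -/
theorem bridge_stay {q : ℝ} (hq : 3 + √q < q) :
    ∃ c : ℝ, 0 < c ∧ ∃ r : ℝ, 1 < r ∧
      ∀ (k N : ℕ) (ι : LEdge (Fin 5) k → LEdge (Fin 5) N), IsBlock (Fin 5) k N ι →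
      (1 / (1 + √q) ≤ ∑ ω, (bridge.lattice N).fk (√q / (1 + √q)) q ω *
          (bridge.lattice k).cross (ω ∘ ι) ∧
        ∑ ω, (bridge.lattice N).fk (√q / (1 + √q)) q ω *
          (bridge.lattice k).cross (ω ∘ ι) ≤ √q / (1 + √q)) ∧
      ∀ t : ℝ, 0 ≤ t → t ≤ c * r ^ k →
      c ≤ autoCov ((bridge.lattice N).fk (√q / (1 + √q)) q) t
        (fun ω => (bridge.lattice k).cross (ω ∘ ι)) := by
  set s := √q with hsdef
  have hq0 : 0 < q := by
    have := Real.sqrt_nonneg q
    linarith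
  have hs : 0 < s := Real.sqrt_pos.mpr hq0
  have hsq : s ^ 2 = q := Real.sq_sqrt hq0.le
  have h1s : 0 < 1 + s := by positivity
  have hp : s / (1 + s) / (1 - s / (1 + s)) = s := by
    have : 1 - s / (1 + s) = 1 / (1 + s) := by field_simp; ring
    rw [this]
    field_simp
  have hp1 : s / (1 + s) < 1 := by
    rw [div_lt_one h1s]
    linarith
  have hc : FixedPt bridge (s / (1 + s)) (s ^ 2) := fixed_bridge hs hp (by positivity) hp1
  have hJ : 1 < jsum bridge (s / (1 + s)) (s ^ 2) := by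
    rw [jsum_bridge hs hp, one_lt_div (by positivity)]
    have h2 : 0 < s ^ 2 - s - 3 := by
      rw [hsq]
      linarith
    have h3 : 0 < (s + 2) ^ 2 * (s ^ 2 - s - 3) := by positivity
    nlinarith
  obtain ⟨c, hc0, h⟩ := stay hc hJ
  rw [hsq] at h hJ hc
  refine ⟨c, hc0, _, hJ, fun k N ι hι => ⟨?_, fun t ht htk => h k N ι hι t ht htk⟩⟩
  refine fixed_bounds hc ?_ k N ι hι
  rw [hp]
  have hs1 : 1 ≤ s := by nlinarith
  intro ρ hρ
  rcases hρ with rfl | rfl
  · rw [one_mul]
    exact ⟨div_le_div_of_nonneg_right hs1 h1s.le, le_rfl⟩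
  · have h2 : q⁻¹ * s / (1 + q⁻¹ * s) = 1 / (1 + s) := by
      rw [← hsq]
      field_simp
      ring
    rw [h2]
    exact ⟨le_rfl, div_le_div_of_nonneg_right hs1 h1s.le⟩

end Pool.Agent.FKH
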