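import Mathlib

/-! Random-cluster (FK) heat-bath dynamics on finite two-terminal networks, and the hierarchical
lattice obtained by iterated substitution of a gadget. -/

namespace Pool.Agent.FKH

/-- A finite network: edge set `E`, interior vertices `I`, and the two terminals `inl false` and
`inl true`; the edge `e` joins the two vertices `ends e`. -/
structure Net (I E : Type) where
  /-- the end points of an edge -/
  ends : E → (Bool ⊕ I) × (Bool ⊕ I)

namespace Net

variable {I E J F : Type}

/-- The graph of the open edges of the configuration `ω`. -/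
def openGraph (G : Net I E) (ω : E → Bool) : SimpleGraph (Bool ⊕ I) :=
  SimpleGraph.fromRel fun x y => ∃ e, ω e = true ∧ G.ends e = (x, y)

/-- The number of connected components of `(V, ω)`. -/
noncomputable def numComp (G : Net I E) (ω : E → Bool) : ℕ :=
  Nat.card (G.openGraph ω).ConnectedComponent

/-- The two terminals are joined by an open path. -/
def Crossed (G : Net I E) (ω : E → Bool) : Prop :=
  (G.openGraph ω).Reachable (Sum.inl false) (Sum.inl true)

/-- The indicator function of the event `Crossed`. -/
noncomputable def cross (G : Net I E) (ω : E → Bool) : ℝ :=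
  open Classical in if G.Crossed ω then 1 else 0

/-- The random-cluster weight `p ^ |ω| * (1 - p) ^ (|E| - |ω|) * q ^ k(ω)`. -/
noncomputable def weight (G : Net I E) [Fintype E] (p q : ℝ) (ω : E → Bool) : ℝ :=
  (∏ e, if ω e then p else 1 - p) * q ^ G.numComp ω

/-- The random-cluster probability measure. -/
noncomputable def fk (G : Net I E) [Fintype E] (p q : ℝ) (ω : E → Bool) : ℝ :=
  open Classical in G.weight p q ω / ∑ ω', G.weight p q ω'

/-- Replace every edge of `H` by a copy of `G`, the terminals `inl false`, `inl true` of the copy
being glued to the first and the second end of the edge. -/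
def subst (H : Net I E) (G : Net J F) : Net (I ⊕ E × J) (E × F) where
  ends := fun x =>
    let lift : Bool ⊕ I → Bool ⊕ (I ⊕ E × J) := fun v => v.map id Sum.inl
    let glue : Bool ⊕ J → Bool ⊕ (I ⊕ E × J) := fun v =>
      match v with
      | Sum.inl false => lift (H.ends x.1).1
      | Sum.inl true => lift (H.ends x.1).2
      | Sum.inr j => Sum.inr (Sum.inr (x.1, j))
    (glue (G.ends x.2).1, glue (G.ends x.2).2)

end Net

/-- Interior vertices of the level `k` lattice. -/
def LInt (I E : Type) : ℕ → Type
  | 0 => Empty
  | k + 1 => I ⊕ E × LInt I E k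

/-- Edges of the level `k` lattice. -/
def LEdge (E : Type) : ℕ → Type
  | 0 => Unit
  | k + 1 => E × LEdge E k

instance LEdge.fintype {E : Type} [Fintype E] : ∀ k, Fintype (LEdge E k)
  | 0 => inferInstanceAs (Fintype Unit)
  | k + 1 => @instFintypeProd E (LEdge E k) _ (LEdge.fintype k)

instance LEdge.decidableEq {E : Type} [DecidableEq E] : ∀ k, DecidableEq (LEdge E k)
  | 0 => inferInstanceAs (DecidableEq Unit)
  | k + 1 => @instDecidableEqProd E (LEdge E k) _ (LEdge.decidableEq k)

/-- The level `k` lattice of the gadget `H`: a single edge at level `0`, and every edge of `H`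
replaced by a copy of the level `k` lattice at level `k + 1`. -/
def Net.lattice {I E : Type} (H : Net I E) : (k : ℕ) → Net (LInt I E k) (LEdge E k)
  | 0 => ⟨fun _ => (Sum.inl false, Sum.inl true)⟩
  | k + 1 => H.subst (H.lattice k)

/-- `IsBlock k N ι`: the map `ι` embeds the edges of the level `k` lattice as the edges of one of
the level `k` blocks of the level `N` lattice. -/
inductive IsBlock (E : Type) : (k N : ℕ) → (LEdge E k → LEdge E N) → Prop
  | refl (k : ℕ) : IsBlock E k k id
  | step (k N : ℕ) (ι : LEdge E k → LEdge E N) (e : E) (h : IsBlock E k N ι) :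
      IsBlock E k (N + 1) fun x => (e, ι x)

/-- Resampling the edge `e` from its conditional law under `π` given the other edges. -/
noncomputable def resample {E : Type} [DecidableEq E] (π : (E → Bool) → ℝ) (e : E)
    (f : (E → Bool) → ℝ) (ω : E → Bool) : ℝ :=
  (π (Function.update ω e true) * f (Function.update ω e true) +
    π (Function.update ω e false) * f (Function.update ω e false)) /
    (π (Function.update ω e true) + π (Function.update ω e false))

/-- The generator of the heat-bath dynamics for `π`: every edge is resampled at rate `1`. -/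
noncomputable def heatBath {E : Type} [Fintype E] [DecidableEq E] (π : (E → Bool) → ℝ) :
    ((E → Bool) → ℝ) →ₗ[ℝ] ((E → Bool) → ℝ) where
  toFun f := fun ω => ∑ e, (resample π e f ω - f ω)
  map_add' f g := by
    funext ω
    simp only [resample, Pi.add_apply, ← Finset.sum_add_distrib]
    refine Finset.sum_congr rfl fun e _ => ?_
    ring
  map_smul' c f := by
    funext ω
    simp only [resample, Pi.smul_apply, smul_eq_mul, RingHom.id_apply, Finset.mul_sum]
    refine Finset.sum_congr rfl fun e _ => ?_
    ring

/-- The semigroup `exp (t L)` of the heat-bath dynamics: `E [f (ω_t) | ω_0 = ω]`. -/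
noncomputable def evolve {E : Type} [Fintype E] [DecidableEq E] (π : (E → Bool) → ℝ) (t : ℝ)
    (f : (E → Bool) → ℝ) : (E → Bool) → ℝ :=
  NormedSpace.exp (t • LinearMap.toContinuousLinearMap (heatBath π)) f

/-- `Cov (f (ω_0), f (ω_t))` for the heat-bath dynamics started from its stationary law `π`. -/
noncomputable def autoCov {E : Type} [Fintype E] [DecidableEq E] (π : (E → Bool) → ℝ) (t : ℝ)
    (f : (E → Bool) → ℝ) : ℝ :=
  ∑ ω, π ω * (f ω * evolve π t f ω) - (∑ ω, π ω * f ω) ^ 2

/-- The Wheatstone bridge: terminals `a`, `b`, interior vertices `u`, `v`, and the edges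
`au`, `av`, `uv`, `ub`, `vb`. -/
def bridge : Net Bool (Fin 5) where
  ends := ![(Sum.inl false, Sum.inr false), (Sum.inl false, Sum.inr true),
    (Sum.inr false, Sum.inr true), (Sum.inr false, Sum.inl true), (Sum.inr true, Sum.inl true)]

end Pool.Agent.FKH
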